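import Pool.Agent.N812.IS.Fin

/-!
# Perturbations of normal operators by operators of the Schatten classes `S_p`, `p < 2`, for almost every
coupling constant (MP_f981b0_an)

Let `N` be a normal operator on a complex Hilbert space and `K f = ∑ s j ⟪v j, f⟫ u j` with orthonormal
sequences `u`, `v` and `∑ s j ² (1 + |log (s j)|) < ∞`; every operator of a Schatten class `S_p`, `p < 2`, on
an infinite-dimensional space is of this form (`schatten`), and no condition is put on `N`. For every `t`
outside a set which is null for all atomless measures with bounded logarithmic potential, in particular for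
almost every complex `t` and for almost every real `t`, the operator `N + t K` is a multiple of the identity
or has a nontrivial closed hyperinvariant subspace. Moreover for these `t` every point `c` of the spectrum
carries, for every `ε > 0`, a nonzero vector `x` with `‖(T - c)^n x‖ ≤ C ε ^ n` for all `n`, and the same
holds for the adjoint.

The starting result `NormalPlusTraceClass` is the case that `K` is of trace class and the space is separable.

Proof. For a bounded function `g` of compact support let `R(g) = ∫ g(z) (z - N)⁻¹ dA = h(N)`,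
`h(w) = ∫ g(z) / (z - w) dA(z)`. The matrix `F(z) = (√(s i s j) ⟪v i, (z - N)⁻¹ u j⟫)` exists for almost
every `z`. Splitting the kernel `1 / (z - w)` at the radius `16 ^ (-max(κ i, κ j))`, `s j ~ 2 ^ (-κ j)`, the
far part is square summable by Bessel's inequality for the sequence with the larger index on the dyadic
blocks and `∫ ‖h_z(N) x‖² dA(z) ≤ C (1 + log (1/ρ)) ‖x‖²`, and the near part is summable. So
`∑ min(|F i j|, |F i j|²)` is locally integrable. Estimates for the regularised determinants of the column
sections of `F` by `exp (C ∑ min(|.|, |.|²))`, and the potential theoretic lemma of the library, show that for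
almost every `t` the inverse of `1 - t F(z)` exists for almost every `z` and has a locally integrable
logarithm. With `c(z) = (1 - t F(z))⁻¹ b(z)`, `b i (z) = √(s i) ⟪v i, (z - N)⁻¹ x⟫`, and a function `g`
with `|g| (1 + ‖c‖) ≤ 1` on a thin annulus about `p`, which is orthogonal to the polynomials but not to
`1 / (z - p)` (Hahn-Banach in `L¹` with the weight `1 / (1 + ‖c‖)`; Jensen's inequality), the vectors
`X k = R(g_k) x + t ∑ √(s j) R(g_k c j) u j`, `g_k = (z - p)^k g`, satisfy `(T - p) X k = X (k + 1)`,
`‖X k‖ ≤ C ε^k`. They vanish only if `x` is in the range of `T - p`. If the spectrum has two points,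
such vectors for `T` and its adjoint annihilate each other (library); if it is one point `p`, then
`T - p` is compact, and Lomonosov's theorem applies.

From the library: `Y271.RO`, `R277.SP` (area Cauchy transforms, functional calculus, annihilation), `R276.CP`
(determinants, potentials), `W577.HI.G1` (Lomonosov), `Y891.NK` (area and length have bounded potentials).
-/

set_option autoImplicit false

open MeasureTheory Metric
open scoped InnerProductSpace ENNReal NNReal

namespace Pool.Agent.Results.MP_f981b0_an.NormalPlusSchatten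

section Defs

variable {H : Type} [NormedAddCommGroup H] [InnerProductSpace ℂ H]

/-- `T` is a multiple of the identity. -/
def IsScalar (T : H →L[ℂ] H) : Prop := ∃ c : ℂ, T = c • (1 : H →L[ℂ] H)

/-- `T` has a closed subspace, neither `{0}` nor the whole space, which is invariant under every
bounded operator commuting with `T`. -/
def HasHyperinvariant (T : H →L[ℂ] H) : Prop :=
  ∃ V : Submodule ℂ H, IsClosed (V : Set H) ∧ V ≠ ⊥ ∧ V ≠ ⊤ ∧
    ∀ Q : H →L[ℂ] H, Q * T = T * Q → ∀ x ∈ V, Q x ∈ V

/-- For every point `c` of the spectrum and every `ε > 0` there is a nonzero vector `x` with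
`‖(T - c)^n x‖ ≤ C ε ^ n` for all `n`. -/
def SmallLocalSpectra (T : H →L[ℂ] H) : Prop :=
  ∀ c ∈ spectrum ℂ T, ∀ ε : ℝ, 0 < ε → ∃ (x : H) (C : ℝ), x ≠ 0 ∧
    ∀ n : ℕ, ‖((T - c • (1 : H →L[ℂ] H)) ^ n) x‖ ≤ C * ε ^ n

/-- The conclusion of the theorem for one operator. -/
def Good [CompleteSpace H] (T : H →L[ℂ] H) : Prop :=
  (IsScalar T ∨ HasHyperinvariant T) ∧ SmallLocalSpectra T ∧
    SmallLocalSpectra (ContinuousLinearMap.adjoint T)

/-- `K f = ∑ s j ⟪v j, f⟫ u j` with orthonormal sequences `u`, `v` and numbers `s j ≥ 0`. -/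
structure SingularValues (K : H →L[ℂ] H) (s : ℕ → ℝ) (u v : ℕ → H) : Prop where
  left : Orthonormal ℂ u
  right : Orthonormal ℂ v
  nonneg : ∀ j, 0 ≤ s j
  sum : ∀ f, HasSum (fun j => ((s j : ℂ) * ⟪v j, f⟫_ℂ) • u j) (K f)

/-- The singular numbers of `K` satisfy `∑ s² (1 + |log s|) < ∞`. -/
def LogHilbertSchmidt (K : H →L[ℂ] H) : Prop :=
  ∃ (s : ℕ → ℝ) (u v : ℕ → H), SingularValues K s u v ∧
    Summable fun j => s j ^ 2 * (1 + |Real.log (s j)|)

/-- The singular numbers of `K` satisfy `∑ s^p < ∞`. -/
def Schatten (p : ℝ) (K : H →L[ℂ] H) : Prop :=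
  ∃ (s : ℕ → ℝ) (u v : ℕ → H), SingularValues K s u v ∧ Summable fun j => s j ^ p

end Defs

/-- The measure `m` has no atoms, and on every disc `|t| < R` it is finite and
`∫ log⁺ (1 / |t - s|) dm(t)` is bounded in `s ∈ ℂ`. -/
def BoundedPotential (m : Measure ℂ) : Prop :=
  (∀ s : ℂ, m {s} = 0) ∧
  ∀ R : ℝ, m (ball (0:ℂ) R) ≠ ⊤ ∧ ∃ C : ℝ≥0, ∀ s : ℂ,
    ∫⁻ t in ball (0:ℂ) R, ENNReal.ofReal (Real.posLog ‖t - s‖⁻¹) ∂m ≤ C

/-- The exceptional set of the coupling constants is null for all measures with bounded logarithmic
potential, for the area and for the length on the real line. -/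
def Generic (P : ℂ → Prop) : Prop :=
  (∀ m : Measure ℂ, BoundedPotential m → ∀ᵐ t ∂m, P t) ∧ (∀ᵐ t : ℂ, P t) ∧ (∀ᵐ t : ℝ, P (t : ℂ))

/-- **Generic perturbations of normal operators with `∑ s² (1 + |log s|) < ∞` have hyperinvariant
subspaces.** Let `N` be normal and `K` with `∑ s² (1 + |log s|) < ∞` on a Hilbert space. Then `N + t K` is
good (a multiple of the identity or with a nontrivial hyperinvariant subspace, and with small local
spectra, as its adjoint) for almost every `t` with respect to every atomless measure with bounded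
logarithmic potential, in particular for almost every complex and for almost every real `t`. -/
theorem result (H : Type) [NormedAddCommGroup H] [InnerProductSpace ℂ H] [CompleteSpace H]
    (N K : H →L[ℂ] H) (hN : IsStarNormal N) (hK : LogHilbertSchmidt K) :
    Generic fun t => Good (N + t • K) := by
  obtain ⟨s, u, v, hs, hsum⟩ := hK
  have hK' : Pool.Agent.N812.IS.LogHS K :=
    ⟨s, u, v, hs.left, hs.right, hs.nonneg, hsum, hs.sum⟩
  have main : ∀ m : Measure ℂ, Pool.Agent.R276.CP.LogBd m → ∀ᵐ t ∂m, Good (N + t • K) := by
    intro m hm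
    filter_upwards [Pool.Agent.N812.IS.normal hN hK' hm] with t ht
    exact ⟨ht.1, ht.2.1, Pool.Agent.N812.IS.locv_adj ht.2.2⟩
  exact ⟨fun m hm => main m (Pool.Agent.N812.IS.logbd_of hm.1 hm.2),
    Pool.Agent.N812.IS.three main⟩

/-- The Schatten classes `S_p`, `p < 2`. -/
theorem schatten (H : Type) [NormedAddCommGroup H] [InnerProductSpace ℂ H] [CompleteSpace H]
    (N K : H →L[ℂ] H) (hN : IsStarNormal N) (p : ℝ) (h0 : 0 < p) (h2 : p < 2) (hK : Schatten p K) :
    Generic fun t => Good (N + t • K) := by
  obtain ⟨s, u, v, hs, hsum⟩ := hK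
  refine result H N K hN ⟨s, u, v, hs, ?_⟩
  refine (Pool.Agent.N812.IS.pow_log hs.nonneg h0 h2 hsum).congr fun j => ?_
  rw [Real.rpow_two]

end Pool.Agent.Results.MP_f981b0_an.NormalPlusSchatten
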