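import Pool.Agent.N226.FM.Fin

/-!
# Smoothing compact perturbations of operators with a multiplication part of dimension `> 1`

Let `X` be a Banach space isomorphic to `L^p(μ; Y) ⊕ Z`, and let `T` act on it as `(M_φ ⊕ R) + K`:
* `M_φ` is the multiplication by a bounded function `φ`, whose distribution `φ_* μ` has dimension
  `> 1` on an open set `U` which it charges: the potentials `∫ |z - φ| ^ (-τ) dμ` are bounded for
  `z ∈ U`, for some `τ > 1` (for instance `φ_* μ` is the area measure on `U`);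
* `R` is an arbitrary bounded operator on `Z` whose spectrum does not meet `U` (and `Z = 0` is allowed);
* `K` is a compact operator from `L^r(μ; Y) ⊕ Z` to `L^q(μ; Y) ⊕ Z`, where `1 < r ≤ p ≤ q < ∞` and
  `1 / r > 1 / q + 1 / τ`.

Then `T` has a nontrivial closed hyperinvariant subspace. Moreover every point `c` of `U` in the
essential range of `φ` carries, for every `ε > 0`, a nonzero vector `x` with
`‖(T - c) ^ n x‖ ≤ C ε ^ n` for all `n`, and a nonzero functional with the corresponding property.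

For `p = 2`, `Y = ℂ`, `Z = 0` these are compact perturbations of infinite rank of normal operators with
thick spectrum (every normal operator on a separable Hilbert space is an `M_φ` on some `L²(μ)`), with an
individual coupling.

Proof. On `E = L^q ⊕ Z` and `F = L^r ⊕ Z` the resolvent of `M_φ ⊕ R` exists as an operator
`M(z) : E → F` which is norm continuous in `z ∈ U`, through the spectrum, because `(z - φ)⁻¹` is
Hölder continuous in `L^s`, `1 / s = 1 / r - 1 / q`. So `K M(z)` is a continuous family of compact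
operators on `E`. Let `c ∈ U` be in the essential range.
* If `1 - K M(z₀)` is invertible for some `z₀` of the essential range near `c`, one takes
  `X_k = ∫ ∂̄χ(z) (z - z₀)^k M(z) (1 - K M(z))⁻¹ e dA(z)` with a cut-off function `χ` near `z₀`.
  These vectors are in `L^q ⊕ Z` (estimate of Hölder type, as `∫ |z - w| ^ (-q') dA(z)` is bounded),
  `(T - z₀) X_k = X_{k+1}`, and `X_0 = -π e + J e`, where `J e` is small for weakly null sequences of `e`
  concentrated near `z₀`, by compactness of `K`.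
* Otherwise `1 - K M(z)` is not invertible for almost every `z` (with respect to `φ_* μ`) near `c`. One
  adds an operator of finite rank making it invertible near `c`, reduces to a matrix function
  `A(z)` with `det A = 0`, and obtains a bounded measurable field `y(z)` of vectors with
  `K M(z) y(z) = y(z)` from the projections `lim (1 + n A(z)* A(z))⁻¹` onto the kernels. Then
  `X_k = ∫_g (z - c)^k M(z) y(z) d(φ_* μ)(z)`, for a suitable set `g`.
The dual system (`F*`, `E*`, composition with `M(z)` and `K`; Schauder's theorem) satisfies the same axioms, so the adjoint has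
such vectors too, and vectors with disjoint local spectra annihilate each other across the commutant
(`Pool.Agent.R277.SP.ann`).
-/

set_option autoImplicit false

open MeasureTheory Metric
open scoped ENNReal NNReal

namespace Pool.Agent.Results.MP_f981b0_an.SmoothingPerturbations

/-- `T` has a closed subspace, neither `{0}` nor the whole space, which is invariant under every
bounded operator commuting with `T`. -/
def HasHyperinvariant {X : Type} [NormedAddCommGroup X] [NormedSpace ℂ X] (T : X →L[ℂ] X) : Prop :=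
  ∃ V : Submodule ℂ X, IsClosed (V : Set X) ∧ V ≠ ⊥ ∧ V ≠ ⊤ ∧
    ∀ Q : X →L[ℂ] X, Q * T = T * Q → ∀ x ∈ V, Q x ∈ V

/-- Smoothing compact perturbations of `M_φ ⊕ R`. -/
theorem result
    -- the multiplication operator and its spectral measure
    {α : Type} [MeasurableSpace α] (μ : Measure α) [IsFiniteMeasure μ]
    (φ : α → ℂ) (hφ : Measurable φ) (hφb : ∃ b : ℝ, ∀ x, ‖φ x‖ ≤ b)
    (U : Set ℂ) (hU : IsOpen U) (hμU : μ (φ ⁻¹' U) ≠ 0)
    (τ : ℝ) (hτ1 : 1 < τ) (hτ2 : τ < 2)
    (hdim : ∃ C : ℝ≥0, ∀ z ∈ U, ∫⁻ x, ‖z - φ x‖ₑ ^ (-τ) ∂μ ≤ C)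
    -- the multiplicity space and the other operator
    (Y : Type) [NormedAddCommGroup Y] [NormedSpace ℂ Y] [CompleteSpace Y] [Nontrivial Y]
    (Z : Type) [NormedAddCommGroup Z] [NormedSpace ℂ Z] [CompleteSpace Z]
    (R : Z →L[ℂ] Z) (hR : ∀ z ∈ U, z ∉ spectrum ℂ R)
    -- the exponents
    (r p q : ℝ≥0∞) [Fact (1 ≤ r)] [Fact (1 ≤ p)] [Fact (1 ≤ q)]
    (hr : 1 < r) (hrp : r ≤ p) (hpq : p ≤ q) (hq : q ≠ ∞)
    (hgain : q⁻¹ + (ENNReal.ofReal τ)⁻¹ < r⁻¹)
    -- the perturbation
    (K : (Lp Y r μ × Z) →L[ℂ] (Lp Y q μ × Z)) (hK : IsCompactOperator K)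
    -- the operator `T` on `X ≃ L^p(μ; Y) ⊕ Z`
    (X : Type) [NormedAddCommGroup X] [NormedSpace ℂ X]
    (S : X ≃L[ℂ] (Lp Y p μ × Z)) (T : X →L[ℂ] X)
    (hT : ∀ (x : X) (g : Lp Y r μ), g =ᵐ[μ] (S x).1 →
      ((S (T x)).1 =ᵐ[μ] fun t => φ t • (S x).1 t + (K (g, (S x).2)).1 t) ∧
      (S (T x)).2 = R (S x).2 + (K (g, (S x).2)).2) :
    HasHyperinvariant T ∧
    ∀ c ∈ U, (∀ ρ : ℝ, 0 < ρ → μ (φ ⁻¹' ball c ρ) ≠ 0) → ∀ ε : ℝ, 0 < ε →
      (∃ (x : X) (C : ℝ), x ≠ 0 ∧
        ∀ n : ℕ, ‖((T - c • (1 : X →L[ℂ] X)) ^ n) x‖ ≤ C * ε ^ n) ∧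
      (∃ (η : X →L[ℂ] ℂ) (C : ℝ), η ≠ 0 ∧
        ∀ (n : ℕ) (x : X), ‖η (((T - c • (1 : X →L[ℂ] X)) ^ n) x)‖ ≤ C * ε ^ n * ‖x‖) := by
  have hD : Pool.Agent.N226.FM.Dim μ φ U τ := ⟨hφ, hφb, hU, hdim⟩
  set T' : (Lp Y p μ × Z) →L[ℂ] (Lp Y p μ × Z) :=
    (S : X →L[ℂ] (Lp Y p μ × Z)) ∘L T ∘L (S.symm : (Lp Y p μ × Z) →L[ℂ] X) with hT'
  have hT'2 : ∀ x, T' (S x) = S (T x) := fun x => by
    show S (T (S.symm (S x))) = S (T x)
    rw [S.symm_apply_apply]
  obtain ⟨⟨V, h1, h2, h3, h4⟩, h5⟩ := Pool.Agent.N226.FM.main hD hτ1 hτ2 hμU hR hr hrp hpq hq hgain hK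
    (T := T') (fun f g z hg => by
      have h := hT (S.symm (f, z)) g (by rw [S.apply_symm_apply]; exact hg)
      rw [S.apply_symm_apply] at h
      exact h)
  have hpow : ∀ (c : ℂ) (n : ℕ) (x : X),
      ((T' - c • (1 : (Lp Y p μ × Z) →L[ℂ] (Lp Y p μ × Z))) ^ n) (S x) =
        S (((T - c • (1 : X →L[ℂ] X)) ^ n) x) := by
    intro c n
    induction n with
    | zero => intro x; rfl
    | succ n ih =>
      intro x
      rw [pow_succ, pow_succ]
      show ((T' - c • (1 : (Lp Y p μ × Z) →L[ℂ] (Lp Y p μ × Z))) ^ n) (T' (S x) - c • S x) =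
        S (((T - c • (1 : X →L[ℂ] X)) ^ n) (T x - c • x))
      rw [hT'2, ← map_smul, ← map_sub, ih]
  refine ⟨⟨V.comap (S : X →ₗ[ℂ] (Lp Y p μ × Z)), ?_, ?_, ?_, ?_⟩, ?_⟩
  · exact h1.preimage S.continuous
  · intro h
    apply h2
    rw [Submodule.eq_bot_iff] at h ⊢
    intro y hy
    have h6 := h (S.symm y) (by
      show S (S.symm y) ∈ V
      rw [S.apply_symm_apply]; exact hy)
    rw [← S.apply_symm_apply y, h6, map_zero]
  · intro h
    apply h3
    rw [Submodule.eq_top_iff'] at h ⊢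
    intro y
    have h6 : S (S.symm y) ∈ V := h (S.symm y)
    rw [S.apply_symm_apply] at h6
    exact h6
  · intro Q hQ x hx
    have hx' : S x ∈ V := hx
    show S (Q x) ∈ V
    set Q' : (Lp Y p μ × Z) →L[ℂ] (Lp Y p μ × Z) :=
      (S : X →L[ℂ] (Lp Y p μ × Z)) ∘L Q ∘L (S.symm : (Lp Y p μ × Z) →L[ℂ] X) with hQ'
    have hcomm : Q' * T' = T' * Q' := by
      refine ContinuousLinearMap.ext fun y => ?_
      show S (Q (S.symm (S (T (S.symm y))))) = S (T (S.symm (S (Q (S.symm y)))))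
      rw [S.symm_apply_apply, S.symm_apply_apply]
      congr 1
      exact congrArg (fun L : X →L[ℂ] X => L (S.symm y)) hQ
    have h6 := h4 Q' hcomm (S x) hx'
    have h7 : Q' (S x) = S (Q x) := by
      show S (Q (S.symm (S x))) = S (Q x)
      rw [S.symm_apply_apply]
    rw [h7] at h6
    exact h6
  · intro c hc hcρ ε hε
    obtain ⟨⟨x, C, hx0, hx⟩, ⟨η, D, hη0, hη⟩⟩ := h5 c hc hcρ ε hε
    refine ⟨⟨S.symm x, ‖(S.symm : (Lp Y p μ × Z) →L[ℂ] X)‖ * C, ?_, fun n => ?_⟩,
      ⟨η ∘L (S : X →L[ℂ] (Lp Y p μ × Z)), D * ‖(S : X →L[ℂ] (Lp Y p μ × Z))‖, ?_, fun n y => ?_⟩⟩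
    · intro h
      apply hx0
      rw [← S.apply_symm_apply x, h, map_zero]
    · have h6 := hpow c n (S.symm x)
      rw [S.apply_symm_apply] at h6
      have h7 : ((T - c • (1 : X →L[ℂ] X)) ^ n) (S.symm x) =
          S.symm (((T' - c • (1 : (Lp Y p μ × Z) →L[ℂ] (Lp Y p μ × Z))) ^ n) x) := by
        rw [h6, S.symm_apply_apply]
      rw [h7, mul_assoc]
      exact ((S.symm : (Lp Y p μ × Z) →L[ℂ] X).le_opNorm _).trans
        (mul_le_mul_of_nonneg_left (hx n) (norm_nonneg _))
    · intro h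
      apply hη0
      refine ContinuousLinearMap.ext fun y => ?_
      have h6 : η (S (S.symm y)) = 0 := congrArg (fun L : X →L[ℂ] ℂ => L (S.symm y)) h
      rw [S.apply_symm_apply] at h6
      exact h6
    · show ‖η (S (((T - c • (1 : X →L[ℂ] X)) ^ n) y))‖ ≤ _
      rw [← hpow]
      refine (hη n (S y)).trans ?_
      have h6 := (S : X →L[ℂ] (Lp Y p μ × Z)).le_opNorm y
      have h8 : 0 ≤ D * ε ^ n := by
        by_contra hneg
        push Not at hneg
        apply hη0
        refine ContinuousLinearMap.ext fun w => ?_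
        have h9 := hη n w
        have h10 := hη 0 w
        have hpos : 0 < ε ^ n := pow_pos hε n
        have hD : D < 0 := by
          by_contra hD
          push Not at hD
          exact absurd (mul_nonneg hD hpos.le) (not_le.2 hneg)
        have h11 : ‖η w‖ ≤ D * ε ^ 0 * ‖w‖ := h10
        rw [pow_zero, mul_one] at h11
        have h12 : D * ‖w‖ ≤ 0 := mul_nonpos_of_nonpos_of_nonneg hD.le (norm_nonneg _)
        have h13 : ‖η w‖ ≤ 0 := h11.trans h12
        exact norm_le_zero_iff.1 h13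
      calc D * ε ^ n * ‖S y‖ ≤ D * ε ^ n * (‖(S : X →L[ℂ] (Lp Y p μ × Z))‖ * ‖y‖) :=
            mul_le_mul_of_nonneg_left h6 h8
        _ = D * ‖(S : X →L[ℂ] (Lp Y p μ × Z))‖ * ε ^ n * ‖y‖ := by ring

end Pool.Agent.Results.MP_f981b0_an.SmoothingPerturbations
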