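import Pool.Agent.N812.WO.Den

/-!
# Individual Schatten class perturbations of operators with a thick normal part (MP_f981b0_an)

Let `A` be an operator on a complex Hilbert space `H = H₀ ⊕ H₁ ⊕ H₂` which is upper triangular with a normal
operator `N` in the middle:

    A = ( R₀  *   * )
        ( 0   N   * )
        ( 0   0   R₂ )

(the compression of `A` to the semi-invariant subspace `H₁` is normal). Nothing is supposed about the
operators `R₀`, `R₂` and the entries `*`, and `H₀ = 0`, `H₂ = 0` are allowed: `A = N` is a normal operator,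
`A = R₀ ⊕ N` has a normal direct summand, for `H₀ = 0` the operator `A` has an invariant subspace on which
it is normal. Let `x ∈ H₁` be a vector whose spectral measure `ν` has a bounded potential of order `τ`,
`∫ |z - w| ^ (-τ) dν(z) ≤ C` for all `w`, for some `1 ≤ τ < 2`, and is not carried by the spectra of `R₀`
and `R₂`. Let `K` be an operator of a Schatten class `S_p` on `H`, where `p < τ` or `p ≤ 1`.

Then `A + K` has a nontrivial closed hyperinvariant subspace. Moreover for every disc `|z - c| < r` which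
`ν` charges off the spectra of `R₀` and `R₂` there is a nonzero vector `y` with `‖(A + K - c)^n y‖ ≤ C r ^ n`
for all `n`, and the same holds for the adjoint of `A + K`.

The perturbation `K` is individual: there is no generic coupling constant as in `NormalPlusSchatten`, no
condition on the vectors as in the work on perturbations of diagonal operators, and `K` has infinite rank.
If the spectral measure of a normal operator `N` is not singular to the area, the theorem applies
to `N + K` for all `K ∈ S_p`, `p < 2` (`planar`); for trace class operators it is enough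
that the spectral measure of `N` is not carried by the points where its potential of order one is infinite.
For `p = 2` no such method is possible: by Voiculescu's theorem every normal operator is a diagonal one plus
a Hilbert-Schmidt operator.

Proof (stationary wave operators through the spectrum). Let `l` be in the support of `ν` off the spectra of
`R₀` and `R₂`. The Sylvester equations for a small spectral projection of `N` have solutions, so that near `l`
the operator `A` splits (not orthogonally) into the multiplication by `φ` on `L²(μ)` and an operator `R'`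
with `z - R'` invertible for `z` near `l`. Write `K = U V` with the weights `s j ^ (1 - p / 2)` and
`s j ^ (p / 2)`, so `V` is Hilbert-Schmidt. For almost every `z` of a set `E` of positive measure, where `x`
is bounded below, `G(z) = V (φ(z) - A)⁻¹ U` is defined by an absolutely convergent integral and
compact: on the block `s j ~ 2 ^ (-k)` of `U` the kernel `1 / ζ` is split at the radius `2 ^ (-γ k)`, the near part
is estimated by the potential, the far part by Bessel's inequality, and both sums converge for a suitable `γ`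
if `p < τ`. If `y` and `ξ` are bounded functions on `E` with values in `ℂ` and `ℓ²` and `y V + G ξ = ξ`, then
`X(y, ξ) = y + ∫_E (φ(z) - A)⁻¹ U ξ(z) dμ(z)` is in `H`, and by Fubini's theorem `(A + K) X(y, ξ) = X(φ y, φ ξ)`. So
`X_k = X((φ - c)^k y, (φ - c)^k ξ)` for functions carried by `|φ - c| < r` are the vectors required, if
`X_0 ≠ 0`. Where `1 - G(z)` is invertible, `ξ = (1 - G)⁻¹ V y`; otherwise `y = 0` and `ξ(z)` is in the kernel of
`1 - G(z)`, a measurable choice being given by the limit of `(1 + n D* D)⁻¹`, `D = 1 - G`. If `X(1_F y, 1_F ξ) = 0`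
for all subsets `F`, then `0 = V X = ∫_F ξ`, so `ξ = 0` and `y = 0`. The adjoint has the same form.
Finally vectors with small local spectra at different points for `T` and its adjoint
annihilate each other across the commutant (library).

From the library: `Y25.NK` (spectral theorem), `Y77.NK` (adjoints of multiplications), `Y529.NK`
(annihilation), `N226.FM` (potentials of the area).
-/

set_option autoImplicit false

open MeasureTheory Metric
open scoped InnerProductSpace ComplexConjugate

namespace Pool.Agent.Results.MP_f981b0_an.ThickNormalPart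

section Defs

variable {H₀ H₁ H₂ H : Type} [NormedAddCommGroup H₀] [InnerProductSpace ℂ H₀]
  [NormedAddCommGroup H₁] [InnerProductSpace ℂ H₁]
  [NormedAddCommGroup H₂] [InnerProductSpace ℂ H₂]
  [NormedAddCommGroup H] [InnerProductSpace ℂ H]

/-- `T` has a closed subspace, neither `{0}` nor the whole space, which is invariant under every
bounded operator commuting with `T`. -/
def HasHyperinvariant (T : H →L[ℂ] H) : Prop :=
  ∃ V : Submodule ℂ H, IsClosed (V : Set H) ∧ V ≠ ⊥ ∧ V ≠ ⊤ ∧
    ∀ Q : H →L[ℂ] H, Q * T = T * Q → ∀ x ∈ V, Q x ∈ V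

/-- There is a nonzero vector `y` with `‖(T - c)^n y‖ ≤ C r ^ n` for all `n`. -/
def HasLocalVector (T : H →L[ℂ] H) (c : ℂ) (r : ℝ) : Prop :=
  ∃ (y : H) (C : ℝ), y ≠ 0 ∧ ∀ n : ℕ, ‖((T - c • (1 : H →L[ℂ] H)) ^ n) y‖ ≤ C * r ^ n

/-- `K f = ∑ s j ⟪v j, f⟫ u j` with orthonormal sequences `u`, `v` and numbers `s j ≥ 0`. -/
structure SingularValues (K : H →L[ℂ] H) (s : ℕ → ℝ) (u v : ℕ → H) : Prop where
  left : Orthonormal ℂ u
  right : Orthonormal ℂ v
  nonneg : ∀ j, 0 ≤ s j
  sum : ∀ f, HasSum (fun j => ((s j : ℂ) * ⟪v j, f⟫_ℂ) • u j) (K f)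

/-- The singular numbers of `K` satisfy `∑ s^p < ∞`. -/
def Schatten (p : ℝ) (K : H →L[ℂ] H) : Prop :=
  ∃ (s : ℕ → ℝ) (u v : ℕ → H), SingularValues K s u v ∧ Summable fun j => s j ^ p

/-- `H` is the orthogonal sum of (isometric copies of) `H₀`, `H₁`, `H₂`, and `A` is upper triangular with
the diagonal entries `R₀`, `N`, `R₂` with respect to this decomposition. -/
structure UpperTriangular (A : H →L[ℂ] H) (R₀ : H₀ →L[ℂ] H₀) (N : H₁ →L[ℂ] H₁)
    (R₂ : H₂ →L[ℂ] H₂) (j₀ : H₀ →ₗᵢ[ℂ] H) (j₁ : H₁ →ₗᵢ[ℂ] H) (j₂ : H₂ →ₗᵢ[ℂ] H) : Prop where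
  orth01 : ∀ x y, ⟪j₀ x, j₁ y⟫_ℂ = 0
  orth02 : ∀ x y, ⟪j₀ x, j₂ y⟫_ℂ = 0
  orth12 : ∀ x y, ⟪j₁ x, j₂ y⟫_ℂ = 0
  sum : ∀ z, ∃ x y w, j₀ x + j₁ y + j₂ w = z
  column0 : ∀ x, A (j₀ x) = j₀ (R₀ x)
  column1 : ∀ y, ∃ x, A (j₁ y) = j₀ x + j₁ (N y)
  column2 : ∀ w, ∃ x y, A (j₂ w) = j₀ x + j₁ y + j₂ (R₂ w)

variable [CompleteSpace H]

/-- The spectral measure `ν` of `x` has a bounded potential of order `τ`: the integrals of
`(|z - w| + ε) ^ (-τ)` with respect to `ν` are bounded for `w ∈ ℂ`, `ε > 0`. -/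
def BoundedPotential (τ : ℝ) (N : H →L[ℂ] H) (x : H) : Prop :=
  ∃ C : ℝ, ∀ (w : ℂ) (ε : ℝ), 0 < ε →
    ‖⟪x, cfc (fun z : ℂ => (((‖z - w‖ + ε) ^ (-τ) : ℝ) : ℂ)) N x⟫_ℂ‖ ≤ C

/-- The spectral measure of `x` has a bounded density with respect to the area. -/
def BoundedDensity (N : H →L[ℂ] H) (x : H) : Prop :=
  ∃ M : ℝ, ∀ f : ℂ → ℂ, Continuous f → HasCompactSupport f →
    ‖⟪x, cfc f N x⟫_ℂ‖ ≤ M * ∫ z, ‖f z‖

/-- The spectral measure of `x` charges the open set `U`: there is a continuous function `h` which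
vanishes off `U` with `h(N) x ≠ 0`. -/
def Charges (N : H →L[ℂ] H) (x : H) (U : Set ℂ) : Prop :=
  ∃ h : ℂ → ℂ, Continuous h ∧ (∀ z, z ∉ U → h z = 0) ∧ cfc h N x ≠ 0

end Defs

lemma local_of_chain {H : Type} [NormedAddCommGroup H] [InnerProductSpace ℂ H] {T : H →L[ℂ] H}
    {c : ℂ} {r : ℝ} (h : Pool.Agent.N812.WO.Chn T c r) : HasLocalVector T c r := by
  obtain ⟨X, C, h0, hb, hX⟩ := h
  have h1 : ∀ n k, ((T - c • (1 : H →L[ℂ] H)) ^ n) (X k) = X (k + n) := by
    intro n
    induction n with
    | zero => intro k; rfl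
    | succ n ih =>
      intro k
      rw [pow_succ]
      show ((T - c • (1 : H →L[ℂ] H)) ^ n) (T (X k) - c • X k) = X (k + (n + 1))
      rw [hX, ih]
      congr 1
      ring
  refine ⟨X 0, C, h0, fun n => ?_⟩
  rw [h1, zero_add]
  exact hb n

/-- **Individual Schatten class perturbations of operators with a thick normal part.** Let `A` be upper
triangular with the diagonal entries `R₀`, `N`, `R₂` on `H = H₀ ⊕ H₁ ⊕ H₂`, `N` normal, `H₁` separable, let
`x ∈ H₁` be a vector whose spectral measure has a bounded potential of order `τ`, `1 ≤ τ < 2`, and charges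
the complement of the spectra of `R₀` and `R₂`, and let `K` be in the Schatten class `S_p` with `p < τ` or
`p ≤ 1`. Then `A + K` has a nontrivial closed hyperinvariant subspace; and for every disc
`|z - c| < r` which this measure charges off the spectra of `R₀` and `R₂` there are nonzero vectors `y`, `y'`
with `‖(A + K - c)^n y‖ ≤ C r ^ n` and `‖((A + K)† - conj c)^n y'‖ ≤ C' r ^ n` for all `n`. -/
theorem result (H₀ H₁ H₂ H : Type) [NormedAddCommGroup H₀] [InnerProductSpace ℂ H₀]
    [CompleteSpace H₀] [NormedAddCommGroup H₁] [InnerProductSpace ℂ H₁] [CompleteSpace H₁]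
    [NormedAddCommGroup H₂] [InnerProductSpace ℂ H₂] [CompleteSpace H₂] [NormedAddCommGroup H]
    [InnerProductSpace ℂ H] [CompleteSpace H] [TopologicalSpace.SeparableSpace H₁]
    -- the unperturbed operator
    (R₀ : H₀ →L[ℂ] H₀) (N : H₁ →L[ℂ] H₁) (R₂ : H₂ →L[ℂ] H₂) (A : H →L[ℂ] H)
    (j₀ : H₀ →ₗᵢ[ℂ] H) (j₁ : H₁ →ₗᵢ[ℂ] H) (j₂ : H₂ →ₗᵢ[ℂ] H)
    (hA : UpperTriangular A R₀ N R₂ j₀ j₁ j₂) (hN : IsStarNormal N)
    -- the thick part of the normal operator
    (τ : ℝ) (hτ1 : 1 ≤ τ) (hτ2 : τ < 2) (x : H₁) (hx : BoundedPotential τ N x)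
    (hx' : Charges N x (spectrum ℂ R₀ ∪ spectrum ℂ R₂)ᶜ)
    -- the perturbation
    (p : ℝ) (hp0 : 0 < p) (hp : p < τ ∨ p ≤ 1) (K : H →L[ℂ] H) (hK : Schatten p K) :
    HasHyperinvariant (A + K) ∧
    ∀ (c : ℂ) (r : ℝ), 0 < r → Charges N x (ball c r ∩ (spectrum ℂ R₀ ∪ spectrum ℂ R₂)ᶜ) →
      HasLocalVector (A + K) c r ∧
      HasLocalVector (ContinuousLinearMap.adjoint (A + K)) (conj c) r := by
  obtain ⟨s, u, v, hs, hsum⟩ := hK
  have D : Pool.Agent.N812.WO.Tm3 R₀ N R₂ A j₀ j₁ j₂ :=
    ⟨hA.orth01, hA.orth02, hA.orth12, hA.sum, hA.column0, hA.column1, hA.column2⟩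
  obtain ⟨h1, h2⟩ := Pool.Agent.N812.WO.fin3 hN D hx hτ1 hτ2 hs.nonneg hs.left hs.right hs.sum
    ⟨p, hp0, hp, hsum⟩
  refine ⟨?_, fun c r hr hc => ?_⟩
  · obtain ⟨h, hh, hz, hne⟩ := hx'
    exact h2 ⟨h, hh, fun z hz' => hz z (fun hcon => hcon hz'), hne⟩
  · obtain ⟨h, hh, hz, hne⟩ := hc
    obtain ⟨h3, h4⟩ := h1 c r h hr hh (fun z hz' => hz z (fun hcon => hcon.2 hz'))
      (fun z hz' => hz z (fun hcon => hz' hcon.1)) hne
    exact ⟨local_of_chain h3, local_of_chain h4⟩

/-- The case of a normal operator whose spectral measure is not singular to the area (so that some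
nonzero vector has a measure with bounded density): `N + K` has a nontrivial hyperinvariant subspace for every
operator `K` of a Schatten class `S_p`, `p < 2`. -/
theorem planar (H : Type) [NormedAddCommGroup H] [InnerProductSpace ℂ H] [CompleteSpace H]
    [TopologicalSpace.SeparableSpace H] (N : H →L[ℂ] H) (hN : IsStarNormal N) (x : H) (hx0 : x ≠ 0)
    (hx : BoundedDensity N x) (p : ℝ) (hp0 : 0 < p) (hp : p < 2) (K : H →L[ℂ] H)
    (hK : Schatten p K) : HasHyperinvariant (N + K) := by
  obtain ⟨τ, hτ1, hτ2⟩ : ∃ τ : ℝ, max 1 p < τ ∧ τ < 2 := exists_between (max_lt one_lt_two hp)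
  have hB : BoundedPotential τ N x := Pool.Agent.N812.WO.bp_of_bd hN hx
    (lt_trans zero_lt_one ((le_max_left _ _).trans_lt hτ1)) hτ2
  let j : EuclideanSpace ℂ (Fin 0) →ₗᵢ[ℂ] H := ⟨0, fun y => by
    rw [Subsingleton.elim y 0]; simp⟩
  have hj : ∀ y, j y = 0 := fun y => rfl
  have hA : UpperTriangular N (0 : EuclideanSpace ℂ (Fin 0) →L[ℂ] EuclideanSpace ℂ (Fin 0)) N
      (0 : EuclideanSpace ℂ (Fin 0) →L[ℂ] EuclideanSpace ℂ (Fin 0)) j LinearIsometry.id j :=
    ⟨fun x y => by rw [hj, inner_zero_left], fun x y => by rw [hj, inner_zero_left],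
      fun x y => by rw [hj, inner_zero_right], fun z => ⟨0, z, 0, by simp [hj]⟩,
      fun x => by rw [hj, hj, map_zero], fun y => ⟨0, by simp [hj]⟩,
      fun w => ⟨0, 0, by simp [hj]⟩⟩
  have hC : Charges N x (spectrum ℂ
      (0 : EuclideanSpace ℂ (Fin 0) →L[ℂ] EuclideanSpace ℂ (Fin 0)) ∪
        spectrum ℂ (0 : EuclideanSpace ℂ (Fin 0) →L[ℂ] EuclideanSpace ℂ (Fin 0)))ᶜ := by
    have hs : spectrum ℂ (0 : EuclideanSpace ℂ (Fin 0) →L[ℂ] EuclideanSpace ℂ (Fin 0)) = ∅ := by
      have : Subsingleton (EuclideanSpace ℂ (Fin 0) →L[ℂ] EuclideanSpace ℂ (Fin 0)) :=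
        ⟨fun a b => by ext y i; exact i.elim0⟩
      exact spectrum.of_subsingleton _
    refine ⟨fun _ => 1, continuous_const, fun z hz => ?_, ?_⟩
    · rw [hs] at hz
      simp at hz
    · rw [cfc_const_one ℂ N]
      exact hx0
  exact (result _ H _ H 0 N 0 N j LinearIsometry.id j hA hN τ
    ((le_max_left _ _).trans hτ1.le) hτ2 x hB hC p hp0
    (Or.inl ((le_max_right _ _).trans_lt hτ1)) K hK).1

end Pool.Agent.Results.MP_f981b0_an.ThickNormalPart
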