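import Pool.Agent.Y280.Transf
import Pool.Agent.Y280.EllTyp

/-!
# MP_f981b0_an: typical positive contractions of `ℓ_p`, and typical regular contractions

A typical positive contraction of `ℓ_p`, `1 < p < ∞`, has nontrivial closed invariant subspaces,
arbitrarily close to every vector, for the strong and for the strong* operator topology. For
`p = 1`, and for `p = 2`, the existence of a nontrivial closed invariant subspace is due to Gillet
(Typical properties of positive contractions and the invariant subspace problem); for the other `p`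
it was open. The positive contractions form a small subset of the space of all contractions, so this
is independent of the theorem on typical contractions in this folder.

The same holds for the contractively regular operators (the matrix of absolute values is a
contraction) whose matrix entries lie in a closed set `Φ` of complex numbers which is star-shaped
about `0` and contains `1`: `Φ = ℂ` (all contractively regular operators), `Φ = ℝ`, `Φ = [0, 1]`,
`Φ = [0, 1] ∪ [0, i]`, ...
-/

set_option autoImplicit false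
open Finset Filter Topology TopologicalSpace Pool.Agent.Y280
open scoped ENNReal ComplexOrder

namespace Pool.Agent.Results.MP_f981b0_an.TypicalPositiveContractions

variable {E : Type} [NormedAddCommGroup E] [NormedSpace ℂ E]

/-- The positive contractions. -/
def Pos (c : E →ₗ[ℂ] (ℕ → ℂ)) : Set (E →L[ℂ] E) :=
  {T | ‖T‖ ≤ 1 ∧ ∀ x : E, (∀ i, 0 ≤ c x i) → ∀ i, 0 ≤ c (T x) i}

/-- The finite sections of the matrix of absolute values of `a` are contractions of `ℓ_p`. -/
def RegMat (p : ℝ) (a : ℕ → ℕ → ℂ) : Prop :=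
  ∀ (N : ℕ) (x : ℕ → ℝ), (∀ j, 0 ≤ x j) →
    ∑ i ∈ range N, (∑ j ∈ range N, ‖a i j‖ * x j) ^ p ≤ ∑ j ∈ range N, x j ^ p

/-- The contractively regular operators with entries in `Φ`. Here `e` is the basis of the unit
vectors, and `c (T (e j)) i` is the matrix of `T`. -/
def Reg (p : ℝ) (c : E →ₗ[ℂ] (ℕ → ℂ)) (Φ : Set ℂ) : Set (E →L[ℂ] E) :=
  {T | ∀ e : ℕ → E, (∀ j, c (e j) = Pi.single j 1) →
    RegMat p (fun i j => c (T (e j)) i) ∧ ∀ i j, c (T (e j)) i ∈ Φ}

/-- `Φ` is closed, contains `0` and `1` and is star-shaped about `0`. -/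
def Star (Φ : Set ℂ) : Prop :=
  IsClosed Φ ∧ 0 ∈ Φ ∧ 1 ∈ Φ ∧ ∀ z ∈ Φ, ∀ r : ℝ, 0 ≤ r → r ≤ 1 → (r : ℂ) * z ∈ Φ

lemma typ_reg (P : ℝ≥0∞) [Fact (1 ≤ P)] (hP1 : 1 < P) (hPt : P ≠ ∞) (Φ : Set ℂ)
    (hs : Star Φ) (t : TopologicalSpace (Cls P Φ)) (ht : t = SOT (Cls P Φ) ∨ t = SOTStar (Cls P Φ)) :
    (Cls P Φ).Nonempty ∧ @IsCompletelyMetrizableSpace (Cls P Φ) t ∧
      @BaireSpace (Cls P Φ) t ∧
      {T : Cls P Φ | DenselyInvariant (T : EP P →L[ℂ] EP P)} ∈ @residual (Cls P Φ) t := by
  obtain ⟨hΦ, h0, h1, hsc⟩ := hs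
  have hb : ∀ t : TopologicalSpace (Cls P Φ), @IsCompletelyMetrizableSpace (Cls P Φ) t →
      @BaireSpace (Cls P Φ) t := fun t hcm =>
    @BaireSpace.of_completelyPseudoMetrizable _ t
      (@IsCompletelyMetrizableSpace.toIsCompletelyPseudoMetrizableSpace _ t hcm)
  have hp := toReal_pos' hPt
  have hmain : ∀ t : TopologicalSpace (Cls P Φ), sotStar (Cls P Φ) ≤ t → t ≤ sot (Cls P Φ) →
      {T : Cls P Φ | DenselyInvariant (T : EP P →L[ℂ] EP P)} ∈ @residual (Cls P Φ) t := by
    intro t ht1 ht2
    refine Filter.mem_of_superset (cls_typical hP1 hPt h0 h1 hsc ht1 ht2) fun T hT => ?_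
    exact fun x₀ ε hε => inv_of_good hT x₀ hε
  refine ⟨⟨0, ?_, ?_⟩, ?_⟩
  · intro N x hx
    refine le_trans (le_of_eq ?_) (sum_nonneg fun j _ => Real.rpow_nonneg (hx j) _)
    refine sum_eq_zero fun i _ => ?_
    have : ∑ j ∈ range N, ‖ent (0 : EP P →L[ℂ] EP P) i j‖ * x j = 0 := by
      refine sum_eq_zero fun j _ => ?_
      simp [ent]
    rw [this, Real.zero_rpow hp.ne']
  · intro i j
    simpa [ent] using h0
  · rcases ht with rfl | rfl
    · exact ⟨cls_cm_sot hP1 hPt hΦ, hb _ (cls_cm_sot hP1 hPt hΦ),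
        hmain _ (sotStar_le_sot _) le_rfl⟩
    · exact ⟨cls_cm_sotStar hP1 hPt hΦ, hb _ (cls_cm_sotStar hP1 hPt hΦ),
        hmain _ le_rfl (sotStar_le_sot _)⟩

/-- **Typical positive contractions of `ℓ_p`, `1 < p < ∞`, have nontrivial closed invariant
subspaces**, and so have the typical contractively regular operators with entries in a closed set
`Φ ∋ 0, 1` that is star-shaped about `0`; in the strong and in the strong* operator topology. The
spaces of operators are completely metrizable. -/
theorem result (p : ℝ) (hp : 1 < p) (c : E →ₗ[ℂ] (ℕ → ℂ)) (hc : IsEllp p c)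
    (C : Set (E →L[ℂ] E)) (hC : C = Pos c ∨ ∃ Φ : Set ℂ, Star Φ ∧ C = Reg p c Φ)
    (t : TopologicalSpace C) (ht : t = SOT C ∨ t = SOTStar C) :
    C.Nonempty ∧ @IsCompletelyMetrizableSpace _ t ∧ @BaireSpace _ t ∧
      {T : C | DenselyInvariant (T : E →L[ℂ] E)} ∈ @residual _ t := by
  have hp0 : 0 < p := zero_lt_one.trans hp
  obtain ⟨P, hP1, hPt, hPr⟩ : ∃ P : ℝ≥0∞, 1 < P ∧ P ≠ ∞ ∧ P.toReal = p := by
    refine ⟨ENNReal.ofReal p, ?_, ENNReal.ofReal_ne_top, ENNReal.toReal_ofReal hp0.le⟩
    rw [← ENNReal.ofReal_one]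
    exact (ENNReal.ofReal_lt_ofReal_iff hp0).2 hp
  haveI : Fact (1 ≤ P) := ⟨hP1.le⟩
  have hc' : IsEllp P.toReal c := by rw [hPr]; exact hc
  obtain ⟨e, he⟩ := exists_isometry (by rw [hPr]; exact hp0) hc'
  have hes : ∀ y i, c (e.symm y) i = y i := fun y i => by
    rw [← he, e.apply_symm_apply]
  rcases hC with hC | ⟨Φ, hs, hC⟩
  · refine transfer_typ e C (Cls P {z | 0 ≤ z}) ?_ t ht DenselyInvariant DenselyInvariant
      (denselyInvariant_cj e) fun t' ht' => typ_reg P hP1 hPt _ ?_ t' ht'
    · intro T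
      rw [hC, ← posC_eq hP1 hPt]
      show (‖T‖ ≤ 1 ∧ _) ↔ (‖cj e T‖ ≤ 1 ∧ _)
      rw [norm_cj]
      refine and_congr_right fun _ => ?_
      constructor
      · intro h y hy i
        have h2 := h (e.symm y) (fun i => by rw [hes]; exact hy i) i
        rw [cj_apply, he]
        exact h2
      · intro h x hx i
        have h2 := h (e x) (fun i => by rw [he]; exact hx i) i
        rw [cj_apply, he, e.symm_apply_apply] at h2
        exact h2
    · refine ⟨isClosed_Ici, le_refl (0 : ℂ), zero_le_one (α := ℂ), ?_⟩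
      intro z hz r hr _
      exact mul_nonneg (Complex.zero_le_real.2 hr) hz
  · refine transfer_typ e C (Cls P Φ) ?_ t ht DenselyInvariant DenselyInvariant
      (denselyInvariant_cj e) fun t' ht' => typ_reg P hP1 hPt _ hs t' ht'
    intro T
    have hent : ∀ i j, ent (cj e T) i j = c (T (e.symm (eP P j))) i := by
      intro i j
      unfold ent
      rw [cj_apply, he]
    have hb : ∀ j, c (e.symm (eP P j)) = Pi.single j 1 := by
      intro j
      funext i
      rw [hes, eP_apply, Pi.single_apply]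
    have hinj : ∀ f : ℕ → E, (∀ j, c (f j) = Pi.single j 1) → f = fun j => e.symm (eP P j) := by
      intro f hf
      funext j
      apply e.injective
      ext i
      rw [he, e.apply_symm_apply, hf, eP_apply, Pi.single_apply]
    rw [hC]
    constructor
    · intro h
      obtain ⟨h1, h2⟩ := h (fun j => e.symm (eP P j)) hb
      refine ⟨?_, ?_⟩
      · intro N x hx
        have h3 := h1 N x hx
        simp only [hent, hPr]
        exact h3
      · intro i j
        rw [hent]
        exact h2 i j
    · rintro ⟨h1, h2⟩ f hf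
      rw [hinj f hf]
      refine ⟨?_, ?_⟩
      · intro N x hx
        have h3 := h1 N x hx
        simp only [hent, hPr] at h3
        exact h3
      · intro i j
        have h3 := h2 i j
        rw [hent] at h3
        exact h3

end Pool.Agent.Results.MP_f981b0_an.TypicalPositiveContractions
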